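import Mathlib

/-! # Hypersurfaces of degree at most two in each variable as double covers -/

set_option autoImplicit false

open MvPolynomial

namespace Pool.Agent.BD

variable {K : Type} [Field K] [Algebra ℂ K] {n : ℕ}

/-- `x` is a generic point of the hypersurface `F = 0`. -/
def IsGenericPoint (F : MvPolynomial (Fin (n + 1)) ℂ) (x : Fin (n + 1) → K) : Prop :=
  ∀ g : MvPolynomial (Fin (n + 1)) ℂ, aeval x g = 0 ↔ F ∣ g

/-- the value at `x` is the value at `x_0` of the polynomial with coefficients the values at the other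
coordinates -/
theorem aeval_eq (x : Fin (n + 1) → K) (g : MvPolynomial (Fin (n + 1)) ℂ) :
    aeval x g = Polynomial.eval₂ (aeval (fun j => x (Fin.succ j)) :
      MvPolynomial (Fin n) ℂ →ₐ[ℂ] K).toRingHom (x 0) (finSuccEquiv ℂ n g) := by
  induction g using MvPolynomial.induction_on with
  | C c =>
    rw [aeval_C, finSuccEquiv_apply]
    simp
  | add p q hp hq => rw [map_add, map_add, Polynomial.eval₂_add, hp, hq]
  | mul_X p j hp =>
    rw [map_mul, map_mul, Polynomial.eval₂_mul, hp, aeval_X]
    congr 1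
    refine Fin.cases ?_ (fun j => ?_) j
    · rw [finSuccEquiv_X_zero, Polynomial.eval₂_X]
    · rw [finSuccEquiv_X_succ, Polynomial.eval₂_C]
      simp

theorem aeval_eq_zero_iff {F : MvPolynomial (Fin (n + 1)) ℂ} {x : Fin (n + 1) → K}
    (hx : IsGenericPoint F x) (P : Polynomial (MvPolynomial (Fin n) ℂ)) :
    Polynomial.eval₂ (aeval (fun j => x (Fin.succ j)) :
      MvPolynomial (Fin n) ℂ →ₐ[ℂ] K).toRingHom (x 0) P = 0 ↔ finSuccEquiv ℂ n F ∣ P := by
  have h1 := aeval_eq x ((finSuccEquiv ℂ n).symm P)
  rw [AlgEquiv.apply_symm_apply] at h1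
  rw [← h1, hx]
  constructor
  · intro h
    have h2 := map_dvd (finSuccEquiv ℂ n) h
    rwa [AlgEquiv.apply_symm_apply] at h2
  · intro h
    have h2 := map_dvd (finSuccEquiv ℂ n).symm h
    rwa [AlgEquiv.symm_apply_apply] at h2

/-- A hypersurface `F = 0` of degree one or two in `x_0` and at most two in each other variable is a double
cover `w ^ 2 = f` of the space of the other variables, `f` of degree at most four in each variable. -/
theorem exists_cover (F : MvPolynomial (Fin (n + 1)) ℂ) (hF : ∀ i, degreeOf i F ≤ 2)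
    (h0 : degreeOf 0 F ≠ 0) (x : Fin (n + 1) → K) (hx : IsGenericPoint F x)
    (hgen : IntermediateField.adjoin ℂ (Set.range x) = ⊤) :
    ∃ (f : MvPolynomial (Fin n) ℂ) (w : K), f ≠ 0 ∧ (∀ i, degreeOf i f ≤ 4) ∧
      AlgebraicIndependent ℂ (fun j => x (Fin.succ j)) ∧
      w ^ 2 = aeval (fun j => x (Fin.succ j)) f ∧
      IntermediateField.adjoin ℂ (Set.range (fun j => x (Fin.succ j)) ∪ {w}) = ⊤ := by
  set z : Fin n → K := fun j => x (Fin.succ j) with hz
  set φ : MvPolynomial (Fin n) ℂ →+* K :=
    (aeval z : MvPolynomial (Fin n) ℂ →ₐ[ℂ] K).toRingHom with hφ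
  have hφa : ∀ g, φ g = aeval z g := fun g => rfl
  set P := finSuccEquiv ℂ n F with hP
  have hPdeg : P.natDegree = degreeOf 0 F := natDegree_finSuccEquiv F
  have hP2 : P.natDegree ≤ 2 := hPdeg.le.trans (hF 0)
  have hP0 : P.natDegree ≠ 0 := by rw [hPdeg]; exact h0
  have hzero : ∀ Q : Polynomial (MvPolynomial (Fin n) ℂ), Polynomial.eval₂ φ (x 0) Q = 0 ↔ P ∣ Q :=
    fun Q => aeval_eq_zero_iff hx Q
  -- the other coordinates are independent
  have hinj : ∀ g : MvPolynomial (Fin n) ℂ, aeval z g = 0 → g = 0 := by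
    intro g hg
    by_contra hne
    have h1 : P ∣ Polynomial.C g := by
      rw [← hzero, Polynomial.eval₂_C]
      exact hg
    have h2 := Polynomial.natDegree_le_of_dvd h1 (Polynomial.C_ne_zero.2 hne)
    rw [Polynomial.natDegree_C] at h2
    exact hP0 (Nat.le_zero.1 h2)
  have hind : AlgebraicIndependent ℂ z := (injective_iff_map_eq_zero _).2 hinj
  set A := P.coeff 2 with hA
  set B := P.coeff 1 with hB
  set C' := P.coeff 0 with hC
  have hPeq : P = Polynomial.C A * Polynomial.X ^ 2 + Polynomial.C B * Polynomial.X +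
      Polynomial.C C' := by
    have h1 := Polynomial.eq_quadratic_of_degree_le_two (Polynomial.natDegree_le_iff_degree_le.1 hP2)
    exact h1
  have hroot : φ A * x 0 ^ 2 + φ B * x 0 + φ C' = 0 := by
    have h1 := (hzero P).2 dvd_rfl
    rw [hPeq] at h1
    simpa [Polynomial.eval₂_add, Polynomial.eval₂_mul, Polynomial.eval₂_pow] using h1
  set w : K := 2 * φ A * x 0 + φ B with hw
  have hw2 : w ^ 2 = aeval z (B ^ 2 - 4 * A * C') := by
    have h1 : aeval z (B ^ 2 - 4 * A * C') = φ B ^ 2 - 4 * φ A * φ C' := by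
      rw [← hφa, map_sub, map_pow, map_mul, map_mul, map_ofNat]
    rw [h1, hw]
    linear_combination 4 * φ A * hroot
  have hw0 : w ≠ 0 := by
    intro h
    have h1 : P ∣ Polynomial.derivative P := by
      rw [← hzero, hPeq]
      simp only [Polynomial.derivative_add, Polynomial.derivative_mul, Polynomial.derivative_C,
        Polynomial.derivative_X_pow, Polynomial.derivative_X, Polynomial.eval₂_add,
        Polynomial.eval₂_mul, Polynomial.eval₂_C, Polynomial.eval₂_pow, Polynomial.eval₂_X]
      have h4 : (0 : K) = 2 * φ A * x 0 + φ B := h.symm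
      simp only [Polynomial.eval₂_zero, Polynomial.eval₂_one, Polynomial.eval₂_natCast, zero_mul, mul_one, zero_add, add_zero, pow_one, Nat.cast_ofNat, Nat.reduceSub, Polynomial.C_ofNat, Polynomial.eval₂_ofNat, map_ofNat, Polynomial.eval₂_C]
      rw [h4]
      ring
    have h2 : Polynomial.derivative P = 0 := by
      by_contra hne
      have h3 := Polynomial.natDegree_le_of_dvd h1 hne
      have h4 := Polynomial.natDegree_derivative_lt hP0
      omega
    exact hP0 (Polynomial.natDegree_eq_zero_of_derivative_eq_zero h2)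
  refine ⟨B ^ 2 - 4 * A * C', w, ?_, ?_, hind, hw2, ?_⟩
  · intro h
    rw [h, map_zero] at hw2
    exact hw0 (pow_eq_zero_iff (two_ne_zero)|>.1 hw2)
  · intro i
    have hc : ∀ k, degreeOf i (P.coeff k) ≤ 2 := fun k =>
      (degreeOf_coeff_finSuccEquiv F i k).trans (hF _)
    have h1 : degreeOf i (B ^ 2) ≤ 4 := by
      rw [pow_two]
      refine (degreeOf_mul_le _ _ _).trans ?_
      have h5 : degreeOf i B ≤ 2 := hc 1
      omega
    have h2 : degreeOf i (4 * A * C') ≤ 4 := by
      have h4 : (4 : MvPolynomial (Fin n) ℂ) = C 4 := (map_ofNat C 4).symm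
      rw [h4, mul_assoc]
      refine (degreeOf_C_mul_le _ _ _).trans ((degreeOf_mul_le _ _ _).trans ?_)
      have h5 : degreeOf i A ≤ 2 := hc 2
      have h6 : degreeOf i C' ≤ 2 := hc 0
      omega
    exact (degreeOf_sub_le _ _ _).trans (max_le h1 h2)
  · rw [eq_top_iff, ← hgen, IntermediateField.adjoin_le_iff]
    set E := IntermediateField.adjoin ℂ (Set.range z ∪ {w}) with hE
    have hzE : ∀ j, z j ∈ E := fun j => IntermediateField.subset_adjoin ℂ _ (Or.inl ⟨j, rfl⟩)
    have hwE : w ∈ E := IntermediateField.subset_adjoin ℂ _ (Or.inr rfl)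
    have hφE : ∀ g, φ g ∈ E := by
      intro g
      rw [hφa]
      induction g using MvPolynomial.induction_on with
      | C c => rw [aeval_C]; exact E.algebraMap_mem c
      | add p q hp hq => rw [map_add]; exact E.add_mem hp hq
      | mul_X p j hp => rw [map_mul, aeval_X]; exact E.mul_mem hp (hzE j)
    haveI : CharZero K := charZero_of_injective_algebraMap (algebraMap ℂ K).injective
    have hx0 : x 0 ∈ E := by
      by_cases hA0 : φ A = 0
      · have hB0 : φ B ≠ 0 := by
          intro h
          apply hw0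
          rw [hw, hA0, h]
          ring
        have h1 : x 0 = - φ C' / φ B := by
          rw [eq_div_iff hB0]
          rw [hA0] at hroot
          linear_combination hroot
        rw [h1]
        exact E.div_mem (E.neg_mem (hφE _)) (hφE _)
      · have h2 : (2 : K) ≠ 0 := two_ne_zero
        have h1 : x 0 = (w - φ B) / (2 * φ A) := by
          rw [eq_div_iff (mul_ne_zero h2 hA0), hw]
          ring
        rw [h1]
        have h3 : (2 : K) ∈ E := by
          have := E.add_mem E.one_mem E.one_mem
          rwa [one_add_one_eq_two] at this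
        exact E.div_mem (E.sub_mem hwE (hφE _)) (E.mul_mem h3 (hφE _))
    rintro _ ⟨j, rfl⟩
    refine Fin.cases ?_ (fun j => ?_) j
    · exact hx0
    · exact hzE j

/-- The same for every variable: an irreducible polynomial of degree at most two in each variable. -/
theorem exists_cover' (F : MvPolynomial (Fin (n + 1)) ℂ) (hirr : Irreducible F)
    (hF : ∀ i, degreeOf i F ≤ 2) (x : Fin (n + 1) → K) (hx : IsGenericPoint F x)
    (hgen : IntermediateField.adjoin ℂ (Set.range x) = ⊤) :
    ∃ (f : MvPolynomial (Fin n) ℂ) (z : Fin n → K) (w : K), f ≠ 0 ∧ (∀ i, degreeOf i f ≤ 4) ∧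
      AlgebraicIndependent ℂ z ∧ w ^ 2 = aeval z f ∧
      IntermediateField.adjoin ℂ (Set.range z ∪ {w}) = ⊤ := by
  classical
  have h1 : ∃ i, degreeOf i F ≠ 0 := by
    by_contra h
    push_neg at h
    have h2 : F.vars = ∅ := by
      rw [Finset.eq_empty_iff_forall_notMem]
      intro i hi
      rw [mem_vars] at hi
      obtain ⟨m, hm, him⟩ := hi
      have h3 := monomial_le_degreeOf i hm
      rw [h i] at h3
      exact (Finsupp.mem_support_iff.1 him) (Nat.le_zero.1 h3)
    have hc := vars_eq_empty_iff_eq_C.1 h2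
    rw [hc] at hirr
    by_cases h0 : coeff 0 F = 0
    · rw [h0, C_0] at hirr
      exact not_irreducible_zero hirr
    · exact hirr.not_isUnit ((isUnit_iff_ne_zero.2 h0).map C)
  obtain ⟨i, hi⟩ := h1
  set σ := Equiv.swap i 0 with hσ
  have hσσ : ∀ j, σ (σ j) = j := fun j => Equiv.swap_apply_self _ _ _ 
  set F' := rename σ F with hF'
  have hdeg : ∀ j, degreeOf (σ j) F' = degreeOf j F := fun j => degreeOf_rename_of_injective σ.injective j
  have hdeg' : ∀ j, degreeOf j F' ≤ 2 := fun j => by
    rw [← hσσ j, hdeg]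
    exact hF _
  obtain ⟨f, w, h⟩ := exists_cover F' hdeg' (by
      have h2 := hdeg i
      rw [hσ, Equiv.swap_apply_left] at h2
      rw [h2]; exact hi) (x ∘ σ) (fun g => by
      have h2 : aeval (x ∘ σ) g = aeval x (rename σ g) := by rw [aeval_rename]
      rw [h2, hx]
      constructor
      · intro h3
        have h4 := map_dvd (rename σ : MvPolynomial (Fin (n + 1)) ℂ →ₐ[ℂ] _) h3
        rwa [rename_rename, (by funext j; exact hσσ j : σ ∘ σ = id), rename_id_apply] at h4
      · intro h3
        have h4 := map_dvd (rename σ : MvPolynomial (Fin (n + 1)) ℂ →ₐ[ℂ] _) h3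
        rwa [hF', rename_rename, (by funext j; exact hσσ j : σ ∘ σ = id), rename_id_apply] at h4)
      (by rw [σ.surjective.range_comp]; exact hgen)
  exact ⟨f, _, w, h⟩

end Pool.Agent.BD
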