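import Pool.Agent.Lib_MP_1209e6_cv.Const
import Pool.Agent.Lib_MP_1209e6_cv.Model
import Pool.Agent.Lib_MP_1209e6_cy.E6NoInt

/-! # Cyclic covers of products of projective lines

`w ^ m = f (x_1, …, x_n)`, `f` of degree at most `e` in each variable: the curves on which all `x_j`, `j ≠ i`,
are constant are covers `w ^ m = q (x_i)`, `deg q ≤ e`, of the line. No genericity, no smoothness. -/

set_option autoImplicit false

open MvPolynomial Pool.Agent.CampanaFlow

namespace Pool.Agent.BD

variable {K : Type} [Field K] [Algebra ℂ K] {n : ℕ}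

/-- `f` with `x_i` replaced by the variable `T` -/
noncomputable def resOne (x : Fin n → K) (i : Fin n) (f : MvPolynomial (Fin n) ℂ) : Polynomial K :=
  aeval (fun j => if j = i then Polynomial.X else Polynomial.C (x j)) f

/-- the field of the functions which do not depend on `x_i` -/
noncomputable def kOf (x : Fin n → K) (i : Fin n) : IntermediateField ℂ K :=
  IntermediateField.adjoin ℂ (x '' {j | j ≠ i})

theorem coeff_resOne (x : Fin n → K) (i : Fin n) (f : MvPolynomial (Fin n) ℂ) (l : ℕ) :
    (resOne x i f).coeff l ∈ kOf x i := by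
  unfold resOne
  induction f using MvPolynomial.induction_on generalizing l with
  | C c =>
    rw [aeval_C, Polynomial.algebraMap_apply, Polynomial.coeff_C]
    split_ifs
    · exact (kOf x i).algebraMap_mem c
    · exact (kOf x i).zero_mem
  | add p q hp hq =>
    rw [map_add, Polynomial.coeff_add]
    exact (kOf x i).add_mem (hp l) (hq l)
  | mul_X p j hp =>
    rw [map_mul, aeval_X]
    by_cases hj : j = i
    · rw [if_pos hj]
      cases l with
      | zero => rw [Polynomial.coeff_mul_X_zero]; exact (kOf x i).zero_mem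
      | succ l => rw [Polynomial.coeff_mul_X]; exact hp l
    · rw [if_neg hj, Polynomial.coeff_mul_C]
      exact (kOf x i).mul_mem (hp l) (IntermediateField.subset_adjoin ℂ _ ⟨j, hj, rfl⟩)

theorem eval_resOne (x : Fin n → K) (i : Fin n) (f : MvPolynomial (Fin n) ℂ) :
    (resOne x i f).eval (x i) = aeval x f := by
  unfold resOne
  induction f using MvPolynomial.induction_on with
  | C c => rw [aeval_C, aeval_C, Polynomial.algebraMap_apply, Polynomial.eval_C]
  | add p q hp hq => rw [map_add, map_add, Polynomial.eval_add, hp, hq]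
  | mul_X p j hp =>
    rw [map_mul, map_mul, aeval_X, aeval_X, Polynomial.eval_mul, hp]
    by_cases hj : j = i
    · rw [if_pos hj, Polynomial.eval_X, hj]
    · rw [if_neg hj, Polynomial.eval_C]

theorem natDegree_resOne (x : Fin n → K) (i : Fin n) (f : MvPolynomial (Fin n) ℂ) :
    (resOne x i f).natDegree ≤ degreeOf i f := by
  classical
  unfold resOne
  rw [aeval_def, eval₂_eq']
  refine Polynomial.natDegree_sum_le_of_forall_le _ _ fun d hd => ?_
  refine (Polynomial.natDegree_mul_le).trans ?_
  have h1 : (algebraMap ℂ (Polynomial K) (coeff d f)).natDegree = 0 := by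
    rw [Polynomial.algebraMap_apply, Polynomial.natDegree_C]
  rw [h1, zero_add]
  refine (Polynomial.natDegree_prod_le _ _).trans ?_
  have h2 : ∀ j ∈ (Finset.univ : Finset (Fin n)),
      (Function.comp Polynomial.natDegree
        (fun j => (if j = i then (Polynomial.X : Polynomial K) else Polynomial.C (x j)) ^ d j)) j ≤
        if j = i then d i else 0 := by
    intro j _
    by_cases hj : j = i
    · simp only [Function.comp_apply, if_pos hj]
      refine (Polynomial.natDegree_pow_le).trans ?_
      rw [Polynomial.natDegree_X, mul_one, hj]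
    · simp only [Function.comp_apply, if_neg hj]
      refine (Polynomial.natDegree_pow_le).trans ?_
      rw [Polynomial.natDegree_C, mul_zero]
  refine (Finset.sum_le_sum h2).trans ?_
  rw [Finset.sum_ite_eq' Finset.univ i (fun _ => d i), if_pos (Finset.mem_univ _)]
  exact monomial_le_degreeOf i hd

/-- the families: the lines parallel to the axes -/
theorem exists_families {m e : ℕ} (hm0 : m ≠ 0) (hgood : Pool.Agent.CV.Good m e)
    (f : MvPolynomial (Fin n) ℂ) (hf : f ≠ 0) (hfd : ∀ i, degreeOf i f ≤ e)
    (x : Fin n → K) (w : K) (hx : AlgebraicIndependent ℂ x) (hw : w ^ m = aeval x f)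
    (hgen : IntermediateField.adjoin ℂ (Set.range x ∪ {w}) = ⊤) :
    (∀ i, ∃ (N : ℕ) (p : Fin (N + 1) → K), AlmostHomogeneous (kOf x i) p) ∧
      ∀ u : K, (∀ i, IsAlgebraic (kOf x i) u) → ∃ c : ℂ, u = algebraMap ℂ K c := by
  obtain ⟨pd, hpd⟩ := Pool.Agent.CV.exists_pd hm0 f x w hx hw hgen
  have hkill : ∀ i, ∀ a ∈ kOf x i, pd i a = 0 := by
    intro i
    refine Pool.Agent.CYDelta.kill_adjoin _ _ ?_
    rintro _ ⟨j, hj, rfl⟩
    rw [hpd i j, if_neg (Ne.symm hj)]
  have hfx : aeval x f ≠ 0 := fun h => hf ((injective_iff_map_eq_zero _).1 hx f h)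
  have hw0 : w ≠ 0 := by
    rintro rfl
    rw [zero_pow hm0] at hw
    exact hfx hw.symm
  refine ⟨fun i => ?_, fun u hu => ?_⟩
  · refine hgood K (kOf x i) (x i) w (resOne x i f) (coeff_resOne x i f)
      ((natDegree_resOne x i f).trans (hfd i)) ?_ hw0 ?_ ⟨pd i, hkill i, ?_⟩
    · rw [eval_resOne, hw]
    · rw [eq_top_iff, ← hgen, IntermediateField.adjoin_le_iff]
      rintro a (⟨j, rfl⟩ | ha)
      · by_cases hj : j = i
        · exact IntermediateField.subset_adjoin ℂ _ (Or.inr (Or.inl (by rw [hj])))
        · exact IntermediateField.subset_adjoin ℂ _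
            (Or.inl (IntermediateField.subset_adjoin ℂ _ ⟨j, hj, rfl⟩))
      · exact IntermediateField.subset_adjoin ℂ _ (Or.inr (Or.inr ha))
    · rw [hpd i i, if_pos rfl]
      exact one_ne_zero
  · exact Pool.Agent.CV.const_of_pd hm0 f x w hx hw hgen pd hpd u fun i =>
      Pool.Agent.CYDelta.kill_algebraic (kOf x i) (pd i) (hkill i) (hu i)

end Pool.Agent.BD
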