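import Pool.Agent.Lib_MP_1209e6_bd.Multi
import Pool.Agent.Lib_MP_1209e6_bd.Hyper
import Pool.Agent.Lib_MP_1209e6_cv.Final

/-!
# Covers of `(ℙ¹)ⁿ` and hypersurfaces of degree two in each variable

`MP_1209e6_ag` (Campana's conjecture: special if and only if Brody-special).

(1) Let `(m, e) = (2, 4), (3, 3)` or `(4, 2)` and let `f ≠ 0` be any polynomial in `n` variables over `ℂ` which
is of degree at most `e` in each variable. Each complex projective variety whose function field is
`ℂ(x_1, …, x_n, w)`, `w ^ m = f (x)`, is special and Brody-special.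

(2) The same holds for each complex projective variety which is birational to an irreducible hypersurface
`F = 0` of `(ℙ¹)ⁿ⁺¹`, where `F` is of degree at most `2` in each variable.

Sketch of the proof. (1) Fix all `x_j` but `x_i`: the curve `w ^ m = f` over the field `k_i = ℂ(x_j, j ≠ i)` is of
genus at most one, so it is almost homogeneous. A function which is algebraic over all `k_i` is killed by
all partial derivatives, so it is constant. Apply the theorem on covering families
(`Pool.Agent.K3.special_covers`, `Pool.Agent.CampanaNT.brody_covers`). (2) `F = A y² + B y + C` and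
`w = 2 A y + B` satisfies `w² = B² - 4 A C`, a polynomial of degree at most `4` in each variable.
-/

set_option autoImplicit false

open MvPolynomial Pool.Agent.Campana Pool.Agent.CampanaFlow

namespace Pool.Agent.Results.MP_1209e6_ag.ProductCovers

/-- The function field of the projective variety with homogeneous prime ideal `P`: the field
generated by the quotients `x_i / x_j` in the fraction field of the coordinate ring. -/
noncomputable abbrev functionField {n : ℕ} (P : Ideal (MvPolynomial (Fin (n + 1)) ℂ)) [P.IsPrime] :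
    IntermediateField ℂ (FractionRing (MvPolynomial (Fin (n + 1)) ℂ ⧸ P)) :=
  IntermediateField.adjoin ℂ
    (Set.range fun ij : Fin (n + 1) × Fin (n + 1) => coord P ij.1 / coord P ij.2)

/-- `K` is generated over `ℂ` by `n` algebraically independent elements `x_1, …, x_n` and an `m`-th root `w` of
`f (x_1, …, x_n)`: the function field of a component of the cyclic cover `w ^ m = f` of `(ℙ¹)ⁿ`. -/
def IsCyclicCover {n : ℕ} (K : Type) [Field K] [Algebra ℂ K] (m : ℕ) (f : MvPolynomial (Fin n) ℂ) : Prop :=
  ∃ (x : Fin n → K) (w : K), AlgebraicIndependent ℂ x ∧ w ^ m = aeval x f ∧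
    IntermediateField.adjoin ℂ (Set.range x ∪ {w}) = ⊤

/-- `K` is the function field of the hypersurface `F = 0`, `F` irreducible: it is generated over `ℂ` by
`z_0, …, z_n`, and the polynomials which vanish at `z` are the multiples of `F`. -/
def IsHypersurface {n : ℕ} (K : Type) [Field K] [Algebra ℂ K] (F : MvPolynomial (Fin (n + 1)) ℂ) : Prop :=
  ∃ z : Fin (n + 1) → K, (∀ g, aeval z g = 0 ↔ F ∣ g) ∧
    IntermediateField.adjoin ℂ (Set.range z) = ⊤

/-- the cyclic covers -/
theorem cyclic {n m e N : ℕ} (hme : m = 2 ∧ e ≤ 4 ∨ m = 3 ∧ e ≤ 3 ∨ m = 4 ∧ e ≤ 2)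
    (f : MvPolynomial (Fin n) ℂ) (hf : f ≠ 0) (hd : ∀ i, f.degreeOf i ≤ e)
    (P : Ideal (MvPolynomial (Fin (N + 1)) ℂ)) [P.IsPrime] (hP : IsVariety P)
    (hK : IsCyclicCover (functionField P) m f) :
    SpecialField (functionField P) ∧ BrodySpecial P := by
  obtain ⟨x, w, hx, hw, hgen⟩ := hK
  obtain ⟨h1, h2⟩ := Pool.Agent.BD.exists_families (by omega) (Pool.Agent.CV.good_of hme) f hf hd x w hx hw hgen
  choose N' p hp using h1
  exact ⟨Pool.Agent.K3.special_covers (K := FunField P) (funField_fg P) (fun _ => FunField P)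
      (Pool.Agent.BD.kOf x) N' p hp h2,
    Pool.Agent.CampanaNT.brody_covers P hP (fun _ => FunField P) (Pool.Agent.BD.kOf x) N' p hp h2⟩

/-- Let `X = V(P)` be a complex projective variety. Suppose that its function field is `ℂ(x_1, …, x_n, w)` with
algebraically independent `x_i` and `w ^ m = f (x)`, where `f ≠ 0` is of degree at most `e` in each variable and
`(m, e) = (2, 4), (3, 3)` or `(4, 2)`; or that `X` is birational to an irreducible hypersurface `F = 0` of
`(ℙ¹)ⁿ⁺¹`, `F` of degree at most `2` in each variable. Then `X` is special and has a Zariski dense entire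
curve. -/
theorem result (n N : ℕ) (P : Ideal (MvPolynomial (Fin (N + 1)) ℂ)) [P.IsPrime] (hP : IsVariety P)
    (h : (∃ (m e : ℕ) (f : MvPolynomial (Fin n) ℂ), (m = 2 ∧ e = 4 ∨ m = 3 ∧ e = 3 ∨ m = 4 ∧ e = 2) ∧
        f ≠ 0 ∧ (∀ i, f.degreeOf i ≤ e) ∧ IsCyclicCover (functionField P) m f) ∨
      (∃ F : MvPolynomial (Fin (n + 1)) ℂ, Irreducible F ∧ (∀ i, F.degreeOf i ≤ 2) ∧
        IsHypersurface (functionField P) F)) :
    SpecialField (functionField P) ∧ BrodySpecial P := by
  rcases h with ⟨m, e, f, hme, hf, hd, hK⟩ | ⟨F, hF, hd, z, hz, hgen⟩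
  · exact cyclic (m := m) (e := e) (by omega) f hf hd P hP hK
  · obtain ⟨f, x, w, hf, hfd, hx, hw, hg⟩ := Pool.Agent.BD.exists_cover' F hF hd z hz hgen
    exact cyclic (m := 2) (e := 4) (by omega) f hf hfd P hP ⟨x, w, hx, hw, hg⟩

end Pool.Agent.Results.MP_1209e6_ag.ProductCovers
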